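import Pool.Agent.H223.EM.MDefs
import Pool.Agent.H306R2.Karamata

set_option autoImplicit false

/-!
Eighth moment lower bound, task MC: the general theorem on multiplicative functions of several
variables, from the Euler product (MA) and its limit (MB).
-/

namespace Pool.Agent.H207R2.EM

open Finset Filter Topology MeasureTheory Complex
open Pool.Agent.H306R2 Pool.Agent.H306R2.SM Pool.Agent.H223.EM

theorem mw_nonneg {r : ℕ} (m : Fin r → ℕ) (lam : ℕ → (Fin r → ℕ) → ℝ) (H : LW r m lam)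
    (b : Fin r → ℕ) : 0 ≤ mw lam b := by
  unfold mw
  split_ifs
  · exact Finset.prod_nonneg fun p hp => H.nonneg p (Nat.prime_of_mem_primeFactors hp) _
  · exact le_rfl

theorem mw_zero {r : ℕ} (lam : ℕ → (Fin r → ℕ) → ℝ) (b : Fin r → ℕ) (h : ∃ i, b i = 0) :
    mw lam b = 0 := by
  unfold mw
  obtain ⟨i, hi⟩ := h
  exact if_neg fun h => h i hi

/-- MC. the general theorem (from MA = `hMA`, MB = `hMB`) -/
theorem MEP {r : ℕ} (_hr : 0 < r) (m : Fin r → ℕ) (lam : ℕ → (Fin r → ℕ) → ℝ) (H : LW r m lam)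
    (hMA : ∀ s : Fin r → ℝ, (∀ i, 0 < s i) →
      Summable (fun b : Fin r → ℕ => mw lam b * ∏ i, (b i : ℝ) ^ (-(s i))) ∧
      HasProd (fun p : Nat.Primes => ∑' v : Fin r → ℕ, lam p v * (p : ℝ) ^ (-(∑ i, s i * (v i : ℝ))))
        (∑' b : Fin r → ℕ, mw lam b * ∏ i, (b i : ℝ) ^ (-(s i))))
    (hMB : ∀ s : Fin r → ℝ, (∀ i, 0 < s i) →
      Multipliable (fun p : Nat.Primes => (1 - 1 / (p : ℝ)) ^ (∑ i, m i) * ∑' v : Fin r → ℕ, lam p v) ∧
      Tendsto (fun L : ℝ => (∏' p : Nat.Primes,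
          ∑' v : Fin r → ℕ, lam p v * (p : ℝ) ^ (-(∑ i, s i / L * (v i : ℝ)))) / L ^ ((∑ i, m i : ℕ) : ℝ))
        atTop (𝓝 ((∏' p : Nat.Primes, ((1 - 1 / (p : ℝ)) ^ (∑ i, m i) * ∑' v : Fin r → ℕ, lam p v)) *
          ∏ i, (s i) ^ (-(m i : ℝ))))) :
    KH r (mw lam) ∧ ∀ s : Fin r → ℝ, (∀ i, 0 < s i) →
      Tendsto (fun L : ℝ => (∑' b : Fin r → ℕ, mw lam b * ∏ i, (b i : ℝ) ^ (-(s i / L))) /
          L ^ ((∑ i, m i : ℕ) : ℝ)) atTop
        (𝓝 ((∏' p : Nat.Primes, ((1 - 1 / (p : ℝ)) ^ (∑ i, m i) * ∑' v : Fin r → ℕ, lam p v)) *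
          ∏ i, (s i) ^ (-(m i : ℝ)))) := by
  refine ⟨⟨mw_nonneg m lam H, mw_zero lam, fun s hs => (hMA s hs).1⟩, fun s hs => ?_⟩
  refine (hMB s hs).2.congr' ?_
  filter_upwards [eventually_gt_atTop (0 : ℝ)] with L hL
  rw [(hMA (fun i => s i / L) (fun i => div_pos (hs i) hL)).2.tprod_eq]

end Pool.Agent.H207R2.EM
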