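import Mathlib

set_option autoImplicit false

/-!
Non-convergence of the normalised recurrence function.
-/

namespace Pool.Agent.H207R2.Recur

/-- Windows of length `m` of `x` contain all factors of length `n`. -/
def W (x : ℕ → ℕ) (n m : ℕ) : Prop :=
  ∀ p i : ℕ, ∃ q : ℕ, p ≤ q ∧ q + n ≤ p + m ∧ ∀ j < n, x (q + j) = x (i + j)

variable {x : ℕ → ℕ} {R : ℕ → ℕ}

theorem gap (hR : ∀ n, W x n (R n))
    (hap : ¬ ∃ P N : ℕ, 0 < P ∧ ∀ i ≥ N, x (i + P) = x i)
    (i n g : ℕ) (hg : 0 < g) (h : ∀ t < n, x (i + t) = x (i + g + t)) :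
    n + g < R (g + 1) := by
  by_contra hcon
  rw [not_lt] at hcon
  apply hap
  refine ⟨g, 0, hg, fun s _ => ?_⟩
  obtain ⟨q, hq1, hq2, hq3⟩ := hR (g + 1) i s
  have h1 := hq3 0 (by omega)
  have h2 := hq3 g (by omega)
  have h3 := h (q - i) (by omega)
  rw [show i + (q - i) = q by omega, show i + g + (q - i) = q + g by omega] at h3
  simp only [add_zero] at h1
  rw [← h1, ← h2, ← h3]

theorem jump (hR : ∀ n, W x n (R n)) (hmin : ∀ n m, W x n m → R n ≤ m)
    (l : ℕ) (hl : R (l + 1) + 1 < R (l + 2)) :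
    ∃ a b c : ℕ, a ≤ R (l + 2) ∧ b ≤ R (l + 2) ∧ c ≤ R (l + 2) ∧
      (∀ t, 1 ≤ t → t ≤ l → x (a + t) = x (b + t)) ∧ x a ≠ x b ∧
      (∀ t, 1 ≤ t → t ≤ l → x (a + t) = x (c + t)) ∧ x (a + (l + 1)) ≠ x (c + (l + 1)) := by
  have hnW : ¬ W x (l + 2) (R (l + 1) + 1) := fun h => by
    have := hmin _ _ h
    omega
  unfold W at hnW
  push Not at hnW
  obtain ⟨p, i, hpi⟩ := hnW
  obtain ⟨q, hq1, hq2, hq3⟩ := hR (l + 1) p i
  obtain ⟨q', hq1', hq2', hq3'⟩ := hR (l + 1) (p + 1) (i + 1)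
  -- relocation
  have reloc : ∀ s, ∃ s', s' ≤ R (l + 2) ∧ ∀ t, t ≤ l + 1 → x (s' + t) = x (s + t) := by
    intro s
    obtain ⟨s', _, h2, h3⟩ := hR (l + 2) 0 s
    exact ⟨s', by omega, fun t ht => h3 t (by omega)⟩
  obtain ⟨a, ha, ha'⟩ := reloc i
  obtain ⟨b, hb, hb'⟩ := reloc (q' - 1)
  obtain ⟨c, hc, hc'⟩ := reloc q
  refine ⟨a, b, c, ha, hb, hc, ?_, ?_, ?_, ?_⟩
  · intro t ht1 ht2
    rw [ha' t (by omega), hb' t (by omega)]
    have := hq3' (t - 1) (by omega)
    rw [show q' + (t - 1) = q' - 1 + t by omega, show i + 1 + (t - 1) = i + t by omega] at this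
    exact this.symm
  · have h0 := ha' 0 (by omega)
    have h0' := hb' 0 (by omega)
    simp only [add_zero] at h0 h0'
    rw [h0, h0']
    intro hEq
    obtain ⟨j, hj, hne⟩ := hpi (q' - 1) (by omega) (by omega)
    apply hne
    rcases Nat.eq_zero_or_pos j with rfl | hj0
    · simpa using hEq.symm
    · have := hq3' (j - 1) (by omega)
      rw [show q' + (j - 1) = q' - 1 + j by omega, show i + 1 + (j - 1) = i + j by omega] at this
      exact this
  · intro t ht1 ht2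
    rw [ha' t (by omega), hc' t (by omega)]
    exact (hq3 t (by omega)).symm
  · rw [ha' (l + 1) le_rfl, hc' (l + 1) le_rfl]
    intro hEq
    obtain ⟨j, hj, hne⟩ := hpi q (by omega) (by omega)
    apply hne
    rcases Nat.lt_or_ge j (l + 1) with h | h
    · exact hq3 j h
    · have : j = l + 1 := by omega
      rw [this]
      exact hEq.symm

theorem shift_lt (hR : ∀ n, W x n (R n))
    (hap : ¬ ∃ P N : ℕ, 0 < P ∧ ∀ i ≥ N, x (i + P) = x i)
    {K : ℕ} (hK : ∀ n, R n ≤ K * n) {N e l l' a b a' b' : ℕ}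
    (hN : e + 2 * K * e ≤ N) (hl : N ≤ l) (hl' : N ≤ l')
    (h : ∀ t, 1 ≤ t → t ≤ l → x (a + t) = x (b + t))
    (h' : ∀ t, 1 ≤ t → t ≤ l' → x (a' + t) = x (b' + t))
    (ha : a < a' + e) (ha' : a' < a + e) (hb' : b' < b + e) :
    ¬ b + a' < b' + a := by
  intro hlt
  set g := b' + a - b - a' with hg
  have hg0 : 0 < g := by omega
  have hg1 : g + 1 ≤ 2 * e := by omega
  set m := max a a' with hm
  have hma : a ≤ m := le_max_left _ _
  have hma' : a' ≤ m := le_max_right _ _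
  have hmm : m = a ∨ m = a' := max_choice a a'
  have key := gap hR hap (b + (m - a) + 1) (N - e) g hg0 ?_
  · have h1 := hK (g + 1)
    have h2 : K * (g + 1) ≤ K * (2 * e) := Nat.mul_le_mul_left K hg1
    have h3 : K * (2 * e) = 2 * K * e := by ring
    omega
  · intro t ht
    have e1 := h (m - a + 1 + t) (by omega) (by omega)
    have e2 := h' (m - a' + 1 + t) (by omega) (by omega)
    rw [show a + (m - a + 1 + t) = m + 1 + t by omega] at e1
    rw [show a' + (m - a' + 1 + t) = m + 1 + t by omega] at e2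
    rw [show b + (m - a) + 1 + t = b + (m - a + 1 + t) by omega, ← e1, e2]
    congr 1
    omega

theorem shift_eq (hR : ∀ n, W x n (R n))
    (hap : ¬ ∃ P N : ℕ, 0 < P ∧ ∀ i ≥ N, x (i + P) = x i)
    {K : ℕ} (hK : ∀ n, R n ≤ K * n) {N e l l' a b a' b' : ℕ}
    (hN : e + 2 * K * e ≤ N) (hl : N ≤ l) (hl' : N ≤ l')
    (h : ∀ t, 1 ≤ t → t ≤ l → x (a + t) = x (b + t))
    (h' : ∀ t, 1 ≤ t → t ≤ l' → x (a' + t) = x (b' + t))
    (ha : a < a' + e) (ha' : a' < a + e) (hb : b < b' + e) (hb' : b' < b + e) :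
    b + a' = b' + a := by
  have h1 := shift_lt hR hap hK hN hl hl' h h' ha ha' hb'
  have h2 := shift_lt hR hap hK hN hl' hl h' h ha' ha hb
  omega

/-- Two jumps cannot have their data in the same cells. -/
theorem no_two (hR : ∀ n, W x n (R n))
    (hap : ¬ ∃ P N : ℕ, 0 < P ∧ ∀ i ≥ N, x (i + P) = x i)
    {K : ℕ} (hK : ∀ n, R n ≤ K * n) {N e l l' a b c a' b' c' : ℕ}
    (hN : e + 2 * K * e ≤ N) (hl : N ≤ l) (hll : l < l')
    (h1 : ∀ t, 1 ≤ t → t ≤ l → x (a + t) = x (b + t)) (h2 : x a ≠ x b)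
    (h3 : ∀ t, 1 ≤ t → t ≤ l → x (a + t) = x (c + t)) (h4 : x (a + (l + 1)) ≠ x (c + (l + 1)))
    (h1' : ∀ t, 1 ≤ t → t ≤ l' → x (a' + t) = x (b' + t)) (h2' : x a' ≠ x b')
    (h3' : ∀ t, 1 ≤ t → t ≤ l' → x (a' + t) = x (c' + t))
    (ha : a < a' + e) (ha' : a' < a + e) (hb : b < b' + e) (hb' : b' < b + e)
    (hc : c < c' + e) (hc' : c' < c + e) : False := by
  have s1 := shift_eq hR hap hK hN hl (by omega) h1 h1' ha ha' hb hb'
  have s2 := shift_eq hR hap hK hN hl (by omega) h3 h3' ha ha' hc hc'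
  rcases lt_trichotomy a a' with hlt | heq | hlt
  · have := h1 (a' - a) (by omega) (by omega)
    rw [show a + (a' - a) = a' by omega, show b + (a' - a) = b' by omega] at this
    exact h2' this
  · subst heq
    have hbb : b = b' := by omega
    have hcc : c = c' := by omega
    subst hbb hcc
    exact h4 (h3' (l + 1) (by omega) (by omega))
  · have := h1' (a - a') (by omega) (by omega)
    rw [show a' + (a - a') = a by omega, show b' + (a - a') = b by omega] at this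
    exact h2 this

/-- The number of jumps in `[N, 2N)` is bounded, where `N = (2K+1) e`. -/
theorem card_jumps (hR : ∀ n, W x n (R n)) (hmin : ∀ n m, W x n m → R n ≤ m)
    (hap : ¬ ∃ P N : ℕ, 0 < P ∧ ∀ i ≥ N, x (i + P) = x i)
    {K : ℕ} (hK : ∀ n, R n ≤ K * n) {N e : ℕ} (he : 0 < e) (hN : N = (2 * K + 1) * e) :
    ((Finset.Ico N (2 * N)).filter (fun l => R (l + 1) + 1 < R (l + 2))).card ≤
      (K * (4 * K + 4) + 1) ^ 3 := by
  classical
  set Q := K * (4 * K + 4) + 1 with hQ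
  have hch : ∀ l, ∃ abc : ℕ × ℕ × ℕ, R (l + 1) + 1 < R (l + 2) →
      (abc.1 ≤ R (l + 2) ∧ abc.2.1 ≤ R (l + 2) ∧ abc.2.2 ≤ R (l + 2) ∧
      (∀ t, 1 ≤ t → t ≤ l → x (abc.1 + t) = x (abc.2.1 + t)) ∧ x abc.1 ≠ x abc.2.1 ∧
      (∀ t, 1 ≤ t → t ≤ l → x (abc.1 + t) = x (abc.2.2 + t)) ∧
      x (abc.1 + (l + 1)) ≠ x (abc.2.2 + (l + 1))) := by
    intro l
    by_cases h : R (l + 1) + 1 < R (l + 2)
    · obtain ⟨a, b, c, hh⟩ := jump hR hmin l h
      exact ⟨(a, b, c), fun _ => hh⟩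
    · exact ⟨(0, 0, 0), fun h' => absurd h' h⟩
  choose f hf using hch
  set F : ℕ → ℕ × ℕ × ℕ := fun l => ((f l).1 / e, (f l).2.1 / e, (f l).2.2 / e) with hF
  have hcell : ∀ {u v : ℕ}, u / e = v / e → u < v + e := by
    intro u v h
    have h1 := Nat.div_add_mod u e
    have h2 := Nat.div_add_mod v e
    have h3 := Nat.mod_lt u he
    rw [h] at h1
    omega
  have hQb : ∀ l ∈ Finset.Ico N (2 * N), ∀ u, u ≤ R (l + 2) → u / e < Q := by
    intro l hl u hu
    rw [Finset.mem_Ico] at hl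
    rw [Nat.div_lt_iff_lt_mul he]
    have h1 := hK (l + 2)
    have h2 : K * (l + 2) ≤ K * (2 * N + 2 * e) := Nat.mul_le_mul_left K (by omega)
    have h3 : K * (2 * N + 2 * e) = K * (4 * K + 4) * e := by rw [hN]; ring
    have h4 : Q * e = K * (4 * K + 4) * e + e := by rw [hQ]; ring
    omega
  have hmaps : Set.MapsTo F
      (((Finset.Ico N (2 * N)).filter (fun l => R (l + 1) + 1 < R (l + 2)) : Finset ℕ) : Set ℕ)
      ((Finset.range Q ×ˢ (Finset.range Q ×ˢ Finset.range Q) : Finset (ℕ × ℕ × ℕ)) :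
        Set (ℕ × ℕ × ℕ)) := by
    intro l hl
    rw [Finset.mem_coe, Finset.mem_filter] at hl
    obtain ⟨hl1, hl2⟩ := hl
    obtain ⟨g1, g2, g3, _⟩ := hf l hl2
    rw [Finset.mem_coe, Finset.mem_product, Finset.mem_product, Finset.mem_range,
      Finset.mem_range, Finset.mem_range]
    exact ⟨hQb l hl1 _ g1, hQb l hl1 _ g2, hQb l hl1 _ g3⟩
  have hinj : Set.InjOn F
      (((Finset.Ico N (2 * N)).filter (fun l => R (l + 1) + 1 < R (l + 2)) : Finset ℕ) :
        Set ℕ) := by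
    have main : ∀ l l', l ∈ ((Finset.Ico N (2 * N)).filter (fun l => R (l + 1) + 1 < R (l + 2))) →
        l' ∈ ((Finset.Ico N (2 * N)).filter (fun l => R (l + 1) + 1 < R (l + 2))) →
        F l = F l' → ¬ l < l' := by
      intro l l' hl hl' hFF hlt
      rw [Finset.mem_filter, Finset.mem_Ico] at hl hl'
      obtain ⟨_, _, _, p1, p2, p3, p4⟩ := hf l hl.2
      obtain ⟨_, _, _, p1', p2', p3', p4'⟩ := hf l' hl'.2
      simp only [hF, Prod.mk.injEq] at hFF
      obtain ⟨e1, e2, e3⟩ := hFF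
      exact no_two hR hap hK (N := N) (e := e) (by rw [hN]; ring_nf; omega) hl.1.1 hlt
        p1 p2 p3 p4 p1' p2' p3' (hcell e1) (hcell e1.symm) (hcell e2) (hcell e2.symm)
        (hcell e3) (hcell e3.symm)
    intro l hl l' hl' hFF
    have m1 := main l l' hl hl' hFF
    have m2 := main l' l hl' hl hFF.symm
    omega
  have := Finset.card_le_card_of_injOn F hmaps hinj
  rw [Finset.card_product, Finset.card_product, Finset.card_range] at this
  calc _ ≤ Q * (Q * Q) := this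
    _ = Q ^ 3 := by ring

/-- `R n` exceeds `n` by a positive fraction of `n`. -/
theorem lower (hR : ∀ n, W x n (R n))
    (hap : ¬ ∃ P N : ℕ, 0 < P ∧ ∀ i ≥ N, x (i + P) = x i)
    {K : ℕ} (hK : ∀ n, R n ≤ K * n) (n : ℕ) : n + K * n < K * R n + 2 * K := by
  obtain ⟨q, _, hq2, hq3⟩ := hR n 0 (R n - n + 1)
  have hnR : n ≤ R n := by omega
  have key := gap hR hap q n (R n - n + 1 - q) (by omega) (by
    intro t ht
    rw [hq3 t ht]
    congr 1
    omega)
  have h1 := hK (R n - n + 1 - q + 1)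
  have h2 : K * (R n - n + 1 - q + 1) ≤ K * (R n - n + 2) := Nat.mul_le_mul_left K (by omega)
  have h3 : K * (R n - n + 2) + K * n = K * R n + 2 * K := by
    rw [← Nat.mul_add, show R n - n + 2 + n = R n + 2 by omega]
    ring
  omega

theorem main (hR : ∀ n, W x n (R n)) (hmin : ∀ n m, W x n m → R n ≤ m)
    (hap : ¬ ∃ P N : ℕ, 0 < P ∧ ∀ i ≥ N, x (i + P) = x i) (L : ℝ)
    (hL : Filter.Tendsto (fun n : ℕ => (R n : ℝ) / (n : ℝ)) Filter.atTop (nhds L)) : False := by
  -- a global bound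
  obtain ⟨K, hK⟩ : ∃ K : ℕ, ∀ n, R n ≤ K * n := by
    obtain ⟨B, hB⟩ := hL.bddAbove_range
    obtain ⟨K, hKB⟩ := exists_nat_ge B
    refine ⟨K, fun n => ?_⟩
    rcases Nat.eq_zero_or_pos n with rfl | hn
    · have : W x 0 0 := fun p i => ⟨p, le_rfl, by omega, fun j hj => absurd hj (by omega)⟩
      have := hmin 0 0 this
      omega
    · have h1 : (R n : ℝ) / n ≤ B := hB ⟨n, rfl⟩
      have hn' : (0 : ℝ) < n := by exact_mod_cast hn
      rw [div_le_iff₀ hn'] at h1
      have h2 : (R n : ℝ) ≤ K * n := by nlinarith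
      exact_mod_cast h2
  have hK0 : 0 < K := by
    rcases Nat.eq_zero_or_pos K with rfl | h
    · have h1 := hK 1
      obtain ⟨q, _, h2, _⟩ := hR 1 0 0
      omega
    · exact h
  have hKr : (0 : ℝ) < K := by exact_mod_cast hK0
  -- `L ≥ 1 + 1/K`
  have hL1 : 1 + 1 / (K : ℝ) ≤ L := by
    have ht : Filter.Tendsto (fun n : ℕ => (1 + 1 / (K : ℝ)) - 2 / (n : ℝ)) Filter.atTop
        (nhds ((1 + 1 / (K : ℝ)) - 0)) :=
      tendsto_const_nhds.sub (tendsto_const_div_atTop_nhds_zero_nat 2)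
    rw [sub_zero] at ht
    refine le_of_tendsto_of_tendsto ht hL ?_
    filter_upwards [Filter.eventually_gt_atTop 0] with n hn
    have hn' : (0 : ℝ) < n := by exact_mod_cast hn
    have h1 := lower hR hap hK n
    have h2 : (n : ℝ) + K * n < K * R n + 2 * K := by exact_mod_cast h1
    rw [le_div_iff₀ hn']
    have h3 : (1 + 1 / (K : ℝ) - 2 / n) * n = ((K : ℝ) * n + n - 2 * K) / K := by
      field_simp
    rw [h3, div_le_iff₀ hKr]
    linarith
  set T : ℕ := (K * (4 * K + 4) + 1) ^ 3 with hT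
  have hT1 : 1 ≤ T := Nat.one_le_pow _ _ (by omega)
  have hTr : (1 : ℝ) ≤ T := by exact_mod_cast hT1
  -- choose `η`
  set η : ℝ := (1 / (K : ℝ)) / (4 * (3 + 4 * T)) with hη
  have hη0 : 0 < η := by positivity
  have hη1 : η * (3 + 4 * T) = (1 / (K : ℝ)) / 4 := by
    rw [hη]; field_simp
  have hev := (Metric.tendsto_atTop.1 hL) η hη0
  obtain ⟨n₁, hn₁⟩ := hev
  -- choose `e`
  obtain ⟨e, he⟩ := exists_nat_gt (max (n₁ : ℝ) (4 * K * (η * (2 + 3 * T) + T * L)))
  have he1 : n₁ < e := by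
    have := lt_of_le_of_lt (le_max_left _ _) he
    exact_mod_cast this
  have he2 : 4 * K * (η * (2 + 3 * T) + T * L) < e := lt_of_le_of_lt (le_max_right _ _) he
  have he0 : 0 < e := by omega
  set N := (2 * K + 1) * e with hN
  have hNe : e ≤ N := by rw [hN]; nlinarith
  have hNr : (e : ℝ) ≤ N := by exact_mod_cast hNe
  have hcard := card_jumps hR hmin hap hK he0 hN
  -- approximations
  have happ : ∀ n, N ≤ n → (L - η) * n ≤ R n ∧ (R n : ℝ) ≤ (L + η) * n := by
    intro n hn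
    have hn0 : (0 : ℝ) < n := by
      have : 0 < n := by omega
      exact_mod_cast this
    have := hn₁ n (by omega)
    rw [Real.dist_eq, abs_lt] at this
    constructor
    · have h1 : L - η ≤ R n / n := by linarith
      rwa [le_div_iff₀ hn0] at h1
    · have h1 : (R n : ℝ) / n ≤ L + η := by linarith
      rwa [div_le_iff₀ hn0] at h1
  -- telescoping
  have htel : (R (2 * N + 1) : ℝ) - R (N + 1) =
      ∑ l ∈ Finset.Ico N (2 * N), ((R (l + 2) : ℝ) - R (l + 1)) := by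
    have := Finset.sum_Ico_sub (fun l => (R (l + 1) : ℝ)) (show N ≤ 2 * N by omega)
    simpa using this.symm
  have hstep : ∀ l ∈ Finset.Ico N (2 * N), ((R (l + 2) : ℝ) - R (l + 1)) ≤
      1 + (if R (l + 1) + 1 < R (l + 2) then (L + η * (4 * N + 3)) else 0) := by
    intro l hl
    rw [Finset.mem_Ico] at hl
    split_ifs with h
    · have h1 := (happ (l + 2) (by omega)).2
      have h2 := (happ (l + 1) (by omega)).1
      push_cast at h1 h2
      have h3 : (l : ℝ) + 1 ≤ 2 * N := by exact_mod_cast (by omega : l + 1 ≤ 2 * N)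
      nlinarith
    · have : R (l + 2) ≤ R (l + 1) + 1 := by omega
      have : (R (l + 2) : ℝ) ≤ R (l + 1) + 1 := by exact_mod_cast this
      linarith
  have hsum := Finset.sum_le_sum hstep
  rw [← htel, Finset.sum_add_distrib, ← Finset.sum_filter, Finset.sum_const, Finset.sum_const,
    Nat.card_Ico, nsmul_eq_mul, nsmul_eq_mul] at hsum
  have hLη : 0 ≤ L + η * (4 * N + 3) := by
    have h0 : 0 < 1 / (K : ℝ) := by positivity
    have h1 : 0 < L := by linarith
    positivity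
  have hcard' : ((((Finset.Ico N (2 * N)).filter
      (fun l => R (l + 1) + 1 < R (l + 2))).card : ℕ) : ℝ) ≤ T := by exact_mod_cast hcard
  have hmul := mul_le_mul_of_nonneg_right hcard' hLη
  have hNN : ((2 * N - N : ℕ) : ℝ) = N := by
    rw [show 2 * N - N = N by omega]
  rw [hNN, mul_one] at hsum
  have g1 := (happ (2 * N + 1) (by omega)).1
  have g2 := (happ (N + 1) (by omega)).2
  push_cast at g1 g2
  -- (L-η)(2N+1) - (L+η)(N+1) ≤ N + T (L + η(4N+3))
  have fin1 : (L - η) * (2 * N + 1) - (L + η) * (N + 1) ≤ N + T * (L + η * (4 * N + 3)) := by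
    linarith
  -- i.e. (L - 1) N ≤ η (3 + 4T) N + η (2 + 3T) + T L
  have fin2 : (L - 1) * N ≤ (η * (3 + 4 * T)) * N + (η * (2 + 3 * T) + T * L) := by
    nlinarith
  rw [hη1] at fin2
  have fin3 : 1 / (K : ℝ) * N ≤ (L - 1) * N := by
    apply mul_le_mul_of_nonneg_right _ (by positivity)
    linarith
  have fin4 : (η * (2 + 3 * T) + T * L) < N / (4 * K) := by
    rw [lt_div_iff₀ (by positivity)]
    linarith
  have fin5 : (N : ℝ) / (4 * K) = 1 / (K : ℝ) / 4 * N := by field_simp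
  have hNpos : (0 : ℝ) < N := by
    have : 0 < N := by omega
    exact_mod_cast this
  have fin6 : 0 < 1 / (K : ℝ) * N := by positivity
  linarith

end Pool.Agent.H207R2.Recur
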